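import Pool.Agent.W986.SVS.Defs

/-!
# Bounds for schedules
-/

namespace Pool.Agent.W986.SVS

variable {d : ℕ → ℕ → ℕ} {r h : ℕ → ℕ} {s : ℕ}

/-- Total travel time. -/
def tv (d : ℕ → ℕ → ℕ) (s : ℕ) : ℕ → List ℕ → ℕ
  | p, [] => d p s
  | p, j :: π => d p j + tv d s j π

theorem finish_ge : ∀ (π : List ℕ) (p t : ℕ),
    t + tv d s p π + (π.map h).sum ≤ finish d r h s p t π
  | [], p, t => by simp [finish, tv]
  | j :: π, p, t => by
    have := finish_ge π j (max (t + d p j) (r j) + h j)
    simp only [finish, tv, List.map_cons, List.sum_cons]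
    have h2 : t + d p j ≤ max (t + d p j) (r j) := le_max_left _ _
    omega

theorem finish_ge' (b : ℕ) (l2 : List ℕ) : ∀ (l1 : List ℕ) (p t : ℕ),
    r b + h b + tv d s b l2 + (l2.map h).sum ≤ finish d r h s p t (l1 ++ b :: l2)
  | [], p, t => by
    have := finish_ge (d := d) (r := r) (h := h) (s := s) l2 b (max (t + d p b) (r b) + h b)
    simp only [List.nil_append, finish]
    have h2 : r b ≤ max (t + d p b) (r b) := le_max_right _ _
    omega
  | j :: l1, p, t => finish_ge' b l2 l1 j _

theorem tv_triangle (hd : ∀ a b c, d a c ≤ d a b + d b c) (p a : ℕ) :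
    ∀ π : List ℕ, tv d s p π ≤ d p a + tv d s a π
  | [] => hd _ _ _
  | j :: π => by
    have := hd p a j
    simp only [tv]
    omega

theorem tv_sublist (hd : ∀ a b c, d a c ≤ d a b + d b c) {c π : List ℕ} (h : c.Sublist π) :
    ∀ p, tv d s p c ≤ tv d s p π := by
  induction h with
  | slnil => intro p; exact le_rfl
  | @cons l1 l2 a _ ih =>
    intro p
    have h1 := tv_triangle (s := s) hd p a l1
    have h2 := ih a
    simp only [tv]
    omega
  | @cons_cons l1 l2 a _ ih =>
    intro p
    simp only [tv]
    exact Nat.add_le_add_left (ih a) _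

/-- A list whose entries occur in this order in a list without repetitions is a sublist. -/
theorem sublist_of_order {π c : List ℕ} (hc : ∀ a ∈ c, a ∈ π)
    (hlt : c.Pairwise (fun a b => π.idxOf a < π.idxOf b)) : c.Sublist π := by
  have h1 : (c.map π.idxOf).Sublist (List.range π.length) := by
    refine List.sublist_of_subperm_of_pairwise (r := (· < ·)) ?_ ?_ ?_
    · refine List.subperm_of_subset ?_ ?_
      · rw [List.nodup_iff_pairwise_ne, List.pairwise_map]
        exact hlt.imp fun h => h.ne
      · intro i hi
        obtain ⟨a, ha, rfl⟩ := List.mem_map.1 hi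
        exact List.mem_range.2 (List.idxOf_lt_length_iff.2 (hc a ha))
    · rw [List.pairwise_map]; exact hlt
    · exact List.pairwise_lt_range
  have h2 := h1.map (fun i => π.getD i 0)
  have e1 : (c.map π.idxOf).map (fun i => π.getD i 0) = c := by
    rw [List.map_map]
    conv_rhs => rw [← List.map_id c]
    refine List.map_congr_left fun a ha => ?_
    have := List.idxOf_lt_length_iff.2 (hc a ha)
    simp only [Function.comp, id]
    rw [List.getD_eq_getElem _ _ this, List.getElem_idxOf]
  have e2 : (List.range π.length).map (fun i => π.getD i 0) = π := by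
    apply List.ext_getElem
    · simp
    · intro i h1 h2
      simp only [List.getElem_map, List.getElem_range]
      rw [List.getD_eq_getElem _ _ h2]
  rwa [e1, e2] at h2

/-- Distances on a line. -/
def ds (X : ℕ → ℕ) (a b : ℕ) : ℕ := (X a - X b) + (X b - X a)

theorem ds_triangle (X : ℕ → ℕ) (a b c : ℕ) : ds X a c ≤ ds X a b + ds X b c := by
  unfold ds; omega

end Pool.Agent.W986.SVS
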