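import Pool.Agent.NPC.Defs

/-!
# Single-vehicle scheduling on a path with release and handling times

The vertices of the path are numbered `0, …, n - 1` from left to right.
-/

namespace Pool.Agent.W986.SVS

/-- Instances: the start vertex, and the list of the vertices of the path from left to right. Each
entry `((a, b), (r, h))` of the list stands for a vertex with release time `r` and handling time
`h`; `a` is the travel time from this vertex to its right neighbour and `b` the travel time from the
right neighbour to this vertex (both are irrelevant for the last vertex). -/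
abbrev Inst : Type := ℕ × List ((ℕ × ℕ) × (ℕ × ℕ))

/-- The number of vertices. -/
def Inst.n (x : Inst) : ℕ := x.2.length

/-- The start vertex. -/
def Inst.start (x : Inst) : ℕ := x.1

/-- Travel time from vertex `i` to vertex `i + 1`. -/
def Inst.right (x : Inst) (i : ℕ) : ℕ := (x.2.getD i ((0, 0), (0, 0))).1.1

/-- Travel time from vertex `i + 1` to vertex `i`. -/
def Inst.left (x : Inst) (i : ℕ) : ℕ := (x.2.getD i ((0, 0), (0, 0))).1.2

/-- Release time of the job at vertex `i`. -/
def Inst.rel (x : Inst) (i : ℕ) : ℕ := (x.2.getD i ((0, 0), (0, 0))).2.1

/-- Handling time of the job at vertex `i`. -/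
def Inst.hnd (x : Inst) (i : ℕ) : ℕ := (x.2.getD i ((0, 0), (0, 0))).2.2

/-- Travel time from vertex `i` to vertex `j`. -/
def Inst.travel (x : Inst) (i j : ℕ) : ℕ :=
  if i ≤ j then ∑ l ∈ Finset.Ico i j, x.right l else ∑ l ∈ Finset.Ico j i, x.left l

/-- The time at which a vehicle is back at vertex `s`, when it is at vertex `p` at time `t` and has
to process the jobs of the list in this order: it moves to the next job, waits until its release
time if it arrives earlier, processes it, and so on; finally it moves to `s`. -/
def finish (d : ℕ → ℕ → ℕ) (r h : ℕ → ℕ) (s : ℕ) : ℕ → ℕ → List ℕ → ℕ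
  | p, t, [] => t + d p s
  | p, t, j :: π => finish d r h s j (max (t + d p j) (r j) + h j) π

/-- The completion time of the schedule `π`. -/
def Inst.completion (x : Inst) (π : List ℕ) : ℕ :=
  finish x.travel x.rel x.hnd x.start x.start 0 π

/-- The decision problem: is there a schedule with completion time at most `K`? -/
def Schedulable (y : Inst × ℕ) : Prop :=
  y.1.start < y.1.n ∧ ∃ π : List ℕ, π.Perm (List.range y.1.n) ∧ y.1.completion π ≤ y.2

/-- All handling times are positive. -/
def Positive (x : Inst) : Prop := ∀ i < x.n, 0 < x.hnd i

/-- Travel times do not depend on the direction. -/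
def Symmetric (x : Inst) : Prop := ∀ i < x.n, x.right i = x.left i

end Pool.Agent.W986.SVS
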