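import Pool.Agent.W986.SVS.Weak

/-!
# A solution of the subset sum problem gives a short schedule
-/

namespace Pool.Agent.W986.SVS

namespace Par

variable (P : Par) (sel : ℕ → Bool)

/-- The jobs processed on the way to the right, from place `k` on. -/
def outward (k m : ℕ) : List ℕ :=
  (List.range' k m).flatMap (fun i => (2 * i + 2) :: (if sel i then [2 * i + 1] else []))

/-- The jobs processed on the way back. -/
def back : ℕ → List ℕ
  | 0 => []
  | k + 1 => (if sel k then [] else [2 * k + 1]) ++ back k

/-- The schedule. -/
def sched : List ℕ := 0 :: (outward sel 0 P.n ++ (2 * P.n + 1) :: back sel P.n)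

theorem perm_aux : ∀ m : ℕ, (outward sel 0 m ++ back sel m).Perm (List.range' 1 (2 * m))
  | 0 => by simp [outward, back]
  | m + 1 => by
    have ih := perm_aux m
    have e1 : outward sel 0 (m + 1) = outward sel 0 m ++
        ((2 * m + 2) :: (if sel m then [2 * m + 1] else [])) := by
      unfold outward
      rw [List.range'_concat, List.flatMap_append]
      simp
    have e2 : List.range' 1 (2 * (m + 1)) = List.range' 1 (2 * m) ++ [2 * m + 1, 2 * m + 2] := by
      rw [show 2 * (m + 1) = 2 * m + 1 + 1 by ring, List.range'_concat, List.range'_concat,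
        List.append_assoc]
      simp only [one_mul, List.cons_append, List.nil_append]
      rw [show 1 + 2 * m = 2 * m + 1 by ring, show 1 + (2 * m + 1) = 2 * m + 2 by ring]
    rw [e1, e2, back, List.append_assoc]
    have h3 : (outward sel 0 m ++ (((2 * m + 2) :: (if sel m then [2 * m + 1] else [])) ++
        ((if sel m then [] else [2 * m + 1]) ++ back sel m))).Perm
        ((outward sel 0 m ++ back sel m) ++ [2 * m + 1, 2 * m + 2]) := by
      rw [List.append_assoc]
      refine List.Perm.append_left _ ?_
      cases sel m
      · simp only [Bool.false_eq_true, if_false, List.cons_append, List.nil_append]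
        refine (List.Perm.swap _ _ _).trans ?_
        exact (List.perm_append_comm (l₁ := [2 * m + 1, 2 * m + 2]) (l₂ := back sel m))
      · simp only [if_true, List.cons_append, List.nil_append]
        refine (List.Perm.swap _ _ _).trans ?_
        exact (List.perm_append_comm (l₁ := [2 * m + 1, 2 * m + 2]) (l₂ := back sel m))
    exact h3.trans (ih.append_right _)

theorem sched_perm : (P.sched sel).Perm (List.range (2 * P.n + 2)) := by
  have h1 := perm_aux sel P.n
  unfold sched
  have e2 : List.range (2 * P.n + 2) = 0 :: (List.range' 1 (2 * P.n) ++ [2 * P.n + 1]) := by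
    rw [List.range_eq_range', show 2 * P.n + 2 = 2 * P.n + 1 + 1 by ring, List.range'_succ,
      List.range'_concat]
    simp only [zero_add, one_mul]
    rw [show 1 + 2 * P.n = 2 * P.n + 1 by ring]
  rw [e2]
  refine List.Perm.cons _ ?_
  refine List.Perm.trans ?_ (h1.append_right _)
  rw [List.append_assoc]
  refine List.Perm.append_left _ ?_
  exact (List.perm_append_comm (l₁ := [2 * P.n + 1]) (l₂ := back sel P.n))

variable {P} {sel}

theorem finish_back : ∀ k ≤ P.n, ∀ q t, (0 < k → P.X (2 * (k - 1) + 1) ≤ P.X q) →
    k * P.H ≤ t →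
    finish (ds P.X) P.rel P.hnd 0 q t (back sel k) ≤
      t + P.X q + ∑ i ∈ Finset.range k, (if sel i then 0 else P.p i)
  | 0, _, q, t, _, _ => by
    have h0 := P.X_zero
    simp only [back, finish, ds, Finset.range_zero, Finset.sum_empty]
    omega
  | k + 1, hk, q, t, hq, ht => by
    have hq' := hq (by omega)
    rw [show 2 * (k + 1 - 1) + 1 = 2 * k + 1 by omega] at hq'
    rw [Finset.sum_range_succ, back]
    have hmono := P.X_mono (i := 2 * (k - 1) + 1) (j := 2 * k + 1) (by omega)
    have hHk : k * P.H ≤ (k + 1) * P.H := Nat.mul_le_mul_right _ (by omega)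
    cases hs : sel k
    · simp only [Bool.false_eq_true, if_false, List.cons_append, List.nil_append, finish]
      rw [P.rel_J (by omega), P.hnd_J (by omega)]
      have hmax : max (t + ds P.X q (2 * k + 1)) ((k + 1) * P.H) = t + ds P.X q (2 * k + 1) :=
        max_eq_left (by omega)
      rw [hmax]
      refine le_trans (finish_back k (by omega) (2 * k + 1) _ (fun _ => hmono) (by omega)) ?_
      simp only [ds]
      omega
    · simp only [if_true, List.nil_append, add_zero]
      exact finish_back k (by omega) q t (fun _ => hmono.trans hq') (by omega)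

theorem finish_out (hsum : ∑ i ∈ Finset.range P.n, (if sel i then P.a i else 0) = P.b) :
    ∀ m k : ℕ, k + m = P.n → ∀ q t, P.X q ≤ P.X (2 * k + 1) →
    t + (P.X (2 * k + 1) - P.X q) = 1 + k * P.H + P.X (2 * k + 1) + ∑ i ∈ Finset.range k,
      (if sel i then 2 * ((P.n + 1) * P.a i) + P.p i else 0) →
    finish (ds P.X) P.rel P.hnd 0 q t (outward sel k m ++ (2 * P.n + 1) :: back sel P.n) ≤ P.K
  | 0, k, hk, q, t, hq, ht => by
    obtain rfl : k = P.n := by omega
    simp only [outward, List.range'_zero, List.flatMap_nil, List.nil_append, finish]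
    have hz : P.z = P.X (2 * P.n + 1) := rfl
    rw [P.rel_last, P.hnd_last]
    have hS : ∑ i ∈ Finset.range P.n, (if sel i then 2 * ((P.n + 1) * P.a i) + P.p i else 0) =
        2 * P.W + ∑ i ∈ Finset.range P.n, (if sel i then 1 else 0) := by
      have : ∀ i, (if sel i then 2 * ((P.n + 1) * P.a i) + P.p i else 0) =
          4 * (P.n + 1) * (if sel i then P.a i else 0) + (if sel i then 1 else 0) := by
        intro i
        unfold p
        split_ifs <;> ring
      rw [Finset.sum_congr rfl fun i _ => this i, Finset.sum_add_distrib, ← Finset.mul_sum, hsum]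
      unfold W; ring
    have hds : ds P.X q (2 * P.n + 1) = P.X (2 * P.n + 1) - P.X q := by unfold ds; omega
    have hmax : max (t + ds P.X q (2 * P.n + 1)) (P.z + P.n * P.H + 2 * P.W) =
        t + ds P.X q (2 * P.n + 1) := by
      refine max_eq_left ?_
      rw [hds]; omega
    rw [hmax, hds, ht]
    refine le_trans (finish_back P.n le_rfl _ _ (fun h => P.X_mono (by omega)) (by omega)) ?_
    have hp : ∑ i ∈ Finset.range P.n, (if sel i then 2 * ((P.n + 1) * P.a i) + P.p i else 0) +
        ∑ i ∈ Finset.range P.n, (if sel i then 0 else P.p i) =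
        ∑ i ∈ Finset.range P.n, P.p i + P.W := by
      have : ∀ i, (if sel i then 2 * ((P.n + 1) * P.a i) + P.p i else 0) +
          (if sel i then 0 else P.p i) =
          P.p i + 2 * (P.n + 1) * (if sel i then P.a i else 0) := by
        intro i
        split_ifs <;> ring
      rw [← Finset.sum_add_distrib, Finset.sum_congr rfl fun i _ => this i,
        Finset.sum_add_distrib, ← Finset.mul_sum, hsum]
      unfold W; ring
    have hK : P.K = 2 * P.z + P.n * P.H + ∑ i ∈ Finset.range P.n, P.p i + 2 + P.W := rfl
    omega
  | m + 1, k, hk, q, t, hq, ht => by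
    have hkn : k < P.n := by omega
    have e1 := P.X_odd k
    have e2 : P.X (2 * (k + 1) + 1) = P.X (2 * k + 2) + ((P.n + 1) * P.b + 1) :=
      P.X_even (k + 1)
    have hout : outward sel k (m + 1) = ((2 * k + 2) :: (if sel k then [2 * k + 1] else [])) ++
        outward sel (k + 1) m := by
      unfold outward
      rw [List.range'_succ, List.flatMap_cons]
    rw [hout]
    simp only [List.cons_append, finish]
    rw [P.rel_B, P.hnd_B, Nat.max_zero]
    have hds : ds P.X q (2 * k + 2) = P.X (2 * k + 2) - P.X q := by unfold ds; omega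
    have hHk : (k + 1) * P.H = k * P.H + P.H := by ring
    have hsucc := Finset.sum_range_succ
      (fun i => if sel i then 2 * ((P.n + 1) * P.a i) + P.p i else 0) k
    cases hs : sel k
    · simp only [Bool.false_eq_true, if_false, List.nil_append]
      refine finish_out hsum m (k + 1) (by omega) _ _ (by omega) ?_
      rw [hsucc, hs, hds]
      simp only [Bool.false_eq_true, if_false]
      omega
    · simp only [if_true, List.cons_append, List.nil_append, finish]
      rw [P.rel_J hkn, P.hnd_J hkn]
      have hds2 : ds P.X (2 * k + 2) (2 * k + 1) = (P.n + 1) * P.a k := by unfold ds; omega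
      have hmax : max (t + ds P.X q (2 * k + 2) + P.H + ds P.X (2 * k + 2) (2 * k + 1))
          ((k + 1) * P.H) = t + ds P.X q (2 * k + 2) + P.H +
            ds P.X (2 * k + 2) (2 * k + 1) := max_eq_left (by rw [hds, hds2]; omega)
      rw [hmax]
      refine finish_out hsum m (k + 1) (by omega) _ _ (by omega) ?_
      rw [hsucc, hs, hds, hds2]
      simp only [if_true]
      omega

/-- **A solution of the subset sum problem gives a short schedule.** -/
theorem forward (hsum : ∑ i ∈ Finset.range P.n, (if sel i then P.a i else 0) = P.b) :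
    finish (ds P.X) P.rel P.hnd 0 0 0 (P.sched sel) ≤ P.K := by
  unfold sched
  simp only [finish]
  rw [P.rel_zero, P.hnd_zero]
  have h0 := P.X_zero
  refine finish_out hsum P.n 0 (by omega) _ _ (by omega) ?_
  simp only [ds, Finset.range_zero, Finset.sum_empty]
  simp only [Nat.max_zero]
  omega

theorem schedulable_iff : (∃ π : List ℕ, π.Perm (List.range (2 * P.n + 2)) ∧
    finish (ds P.X) P.rel P.hnd 0 0 0 π ≤ P.K) ↔
    ∃ sel : ℕ → Bool, ∑ i ∈ Finset.range P.n, (if sel i then P.a i else 0) = P.b :=
  ⟨fun ⟨_, h1, h2⟩ => converse h1 h2, fun ⟨sel, h⟩ => ⟨P.sched sel, P.sched_perm sel, forward h⟩⟩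

end Par

end Pool.Agent.W986.SVS
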