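import Pool.Agent.W986.SVS.Fwd
import Pool.Agent.H671R2.SubsetSum

/-!
# Single-vehicle scheduling on a path is NP-hard
-/

namespace Pool.Agent.W986.SVS

open Pool.Agent.NPC Pool.Agent.NPC.R671.SS

/-- The parameters of an instance of subset sum. -/
def par (y : List ℕ × ℕ) : Par := ⟨y.1.length, fun i => y.1.getD i 0, y.2⟩

/-- The instance. -/
def inst (P : Par) : Inst × ℕ :=
  ((0, (List.range (2 * P.n + 2)).map fun l => ((P.w l, P.w l), (P.rel l, P.hnd l))), P.K)

theorem finish_congr {d d' : ℕ → ℕ → ℕ} {r r' h h' : ℕ → ℕ} {s N : ℕ} (hs : s < N)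
    (hd : ∀ i < N, ∀ j < N, d i j = d' i j) (hr : ∀ i < N, r i = r' i) (hh : ∀ i < N, h i = h' i) :
    ∀ (π : List ℕ), (∀ j ∈ π, j < N) → ∀ p < N, ∀ t, finish d r h s p t π = finish d' r' h' s p t π
  | [], _, p, hp, t => by simp only [finish]; rw [hd p hp s hs]
  | j :: π, hπ, p, hp, t => by
    have hj := hπ j (by simp)
    simp only [finish]
    rw [hd p hp j hj, hr j hj, hh j hj]
    exact finish_congr hs hd hr hh π (fun i hi => hπ i (by simp [hi])) j hj _

section

variable (P : Par)

theorem inst_n : (inst P).1.n = 2 * P.n + 2 := by simp [inst, Inst.n]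

theorem inst_getD {i : ℕ} (hi : i < 2 * P.n + 2) :
    (inst P).1.2.getD i ((0, 0), (0, 0)) = ((P.w i, P.w i), (P.rel i, P.hnd i)) := by
  unfold inst
  rw [List.getD_eq_getElem _ _ (by simpa using hi)]
  simp

theorem inst_right {i : ℕ} (hi : i < 2 * P.n + 2) : (inst P).1.right i = P.w i := by
  unfold Inst.right; rw [inst_getD P hi]

theorem inst_left {i : ℕ} (hi : i < 2 * P.n + 2) : (inst P).1.left i = P.w i := by
  unfold Inst.left; rw [inst_getD P hi]

theorem inst_rel {i : ℕ} (hi : i < 2 * P.n + 2) : (inst P).1.rel i = P.rel i := by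
  unfold Inst.rel; rw [inst_getD P hi]

theorem inst_hnd {i : ℕ} (hi : i < 2 * P.n + 2) : (inst P).1.hnd i = P.hnd i := by
  unfold Inst.hnd; rw [inst_getD P hi]

theorem sum_Ico_w {i j : ℕ} (h : i ≤ j) : ∑ l ∈ Finset.Ico i j, P.w l = P.X j - P.X i := by
  have h1 : P.X i + ∑ l ∈ Finset.Ico i j, P.w l = P.X j := by
    unfold Par.X
    rw [Finset.range_eq_Ico, Finset.range_eq_Ico]
    exact Finset.sum_Ico_consecutive _ (Nat.zero_le i) h
  omega

theorem inst_travel {i j : ℕ} (hi : i < 2 * P.n + 2) (hj : j < 2 * P.n + 2) :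
    (inst P).1.travel i j = ds P.X i j := by
  unfold Inst.travel ds
  by_cases h : i ≤ j
  · rw [if_pos h, Finset.sum_congr rfl (g := P.w) (fun l hl => inst_right P (by
      rw [Finset.mem_Ico] at hl; omega)), sum_Ico_w P h]
    have := P.X_mono h
    omega
  · rw [if_neg h, Finset.sum_congr rfl (g := P.w) (fun l hl => inst_left P (by
      rw [Finset.mem_Ico] at hl; omega)), sum_Ico_w P (by omega)]
    have := P.X_mono (i := j) (j := i) (by omega)
    omega

theorem inst_iff : Schedulable (inst P) ↔
    ∃ sel : ℕ → Bool, ∑ i ∈ Finset.range P.n, (if sel i then P.a i else 0) = P.b := by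
  rw [← Par.schedulable_iff]
  unfold Schedulable Inst.completion
  rw [inst_n]
  have hc : ∀ π : List ℕ, π.Perm (List.range (2 * P.n + 2)) →
      finish (inst P).1.travel (inst P).1.rel (inst P).1.hnd (inst P).1.start (inst P).1.start 0 π =
        finish (ds P.X) P.rel P.hnd 0 0 0 π := by
    intro π hπ
    exact finish_congr (N := 2 * P.n + 2) (Nat.succ_pos _) (fun i hi j hj => inst_travel P hi hj)
      (fun i hi => inst_rel P hi) (fun i hi => inst_hnd P hi) π
      (fun j hj => List.mem_range.1 (hπ.mem_iff.1 hj)) 0 (by omega) 0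
  constructor
  · rintro ⟨-, π, hπ, h⟩
    exact ⟨π, hπ, by rw [hc π hπ] at h; exact h⟩
  · rintro ⟨π, hπ, h⟩
    exact ⟨Nat.succ_pos _, π, hπ, by rw [hc π hπ]; exact h⟩

theorem inst_positive : Positive (inst P).1 := by
  intro i hi
  rw [inst_n] at hi
  rw [inst_hnd P hi]
  unfold Par.hnd Par.p Par.H
  split_ifs <;> omega

theorem inst_symmetric : Symmetric (inst P).1 := by
  intro i hi
  rw [inst_n] at hi
  rw [inst_right P hi, inst_left P hi]

end

theorem subset_iff : ∀ (as : List ℕ) (b : ℕ), (∃ s : List ℕ, s.Sublist as ∧ s.sum = b) ↔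
    ∃ sel : ℕ → Bool, ∑ i ∈ Finset.range as.length, (if sel i then as.getD i 0 else 0) = b
  | [], b => by
    constructor
    · rintro ⟨s, hs, rfl⟩
      rw [List.sublist_nil.1 hs]
      exact ⟨fun _ => false, by simp⟩
    · rintro ⟨sel, h⟩
      exact ⟨[], List.Sublist.refl _, by simpa using h⟩
  | a :: as, b => by
    have hstep : ∀ sel : ℕ → Bool, ∑ i ∈ Finset.range (a :: as).length,
        (if sel i then (a :: as).getD i 0 else 0) = (if sel 0 then a else 0) +
        ∑ i ∈ Finset.range as.length, (if sel (i + 1) then as.getD i 0 else 0) := by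
      intro sel
      rw [List.length_cons, Finset.sum_range_succ', add_comm]
      rfl
    constructor
    · rintro ⟨s, hs, rfl⟩
      cases hs with
      | cons _ h =>
        obtain ⟨sel, hsel⟩ := (subset_iff as _).1 ⟨s, h, rfl⟩
        refine ⟨fun i => if i = 0 then false else sel (i - 1), ?_⟩
        rw [hstep]
        simpa using hsel
      | @cons_cons s' _ _ h =>
        obtain ⟨sel, hsel⟩ := (subset_iff as _).1 ⟨s', h, rfl⟩
        refine ⟨fun i => if i = 0 then true else sel (i - 1), ?_⟩
        rw [hstep]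
        simpa using hsel
    · rintro ⟨sel, h⟩
      rw [hstep] at h
      obtain ⟨s, hs, hsum⟩ := (subset_iff as _).2 ⟨fun i => sel (i + 1), rfl⟩
      cases h0 : sel 0
      · rw [h0] at h
        exact ⟨s, hs.cons a, by rw [hsum, ← h]; simp⟩
      · rw [h0] at h
        exact ⟨a :: s, hs.cons_cons a, by rw [List.sum_cons, hsum, ← h]; simp⟩

/-! ### The reduction in polynomial time -/

/-- closed form of the rightmost coordinate -/
def zc (y : List ℕ × ℕ) : ℕ :=
  (y.1.length + 1) * ((y.1.length + 1) * y.2 + 1) + (y.1.length + 1) * y.1.sum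

theorem sum_getD (l : List ℕ) : ∑ i ∈ Finset.range l.length, l.getD i 0 = l.sum := by
  induction l with
  | nil => simp
  | cons a l ih =>
    rw [List.length_cons, Finset.sum_range_succ', List.sum_cons, ← ih, add_comm]
    rfl

theorem zc_eq (y : List ℕ × ℕ) : (par y).z = zc y := by
  have key : ∀ k, (par y).X (2 * k + 1) = (k + 1) * ((y.1.length + 1) * y.2 + 1) +
      (y.1.length + 1) * ∑ i ∈ Finset.range k, y.1.getD i 0 := by
    intro k
    induction k with
    | zero =>
      have := (par y).X_even 0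
      rw [this]
      simp [par, Par.X]
    | succ k ih =>
      have e1 := (par y).X_odd k
      have e2 : (par y).X (2 * (k + 1) + 1) = (par y).X (2 * k + 2) +
          (((par y).n + 1) * (par y).b + 1) := (par y).X_even (k + 1)
      rw [e2, e1, ih, Finset.sum_range_succ]
      show _ + (y.1.length + 1) * y.1.getD k 0 + ((y.1.length + 1) * y.2 + 1) = _
      ring
  unfold Par.z zc
  show (par y).X (2 * y.1.length + 1) = _
  rw [key, sum_getD]

/-- closed form of the sum of the handling times of small jobs -/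
def pc (y : List ℕ × ℕ) : ℕ := 2 * (y.1.length + 1) * y.1.sum + y.1.length

theorem pc_eq (y : List ℕ × ℕ) : ∑ i ∈ Finset.range (par y).n, (par y).p i = pc y := by
  have : ∀ i, (par y).p i = 2 * (y.1.length + 1) * y.1.getD i 0 + 1 := by
    intro i; unfold Par.p; show 2 * ((y.1.length + 1) * y.1.getD i 0) + 1 = _; ring
  rw [Finset.sum_congr rfl fun i _ => this i, Finset.sum_add_distrib, ← Finset.mul_sum,
    Finset.sum_const, Finset.card_range, smul_eq_mul, mul_one]
  show 2 * (y.1.length + 1) * ∑ i ∈ Finset.range y.1.length, y.1.getD i 0 + y.1.length = _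
  rw [sum_getD]
  rfl

/-- closed form -/
def Hc (y : List ℕ × ℕ) : ℕ := 2 * zc y + 2 * ((y.1.length + 1) * y.2) + pc y + 3

theorem Hc_eq (y : List ℕ × ℕ) : (par y).H = Hc y := by
  unfold Par.H Hc
  rw [zc_eq, pc_eq]
  rfl

/-- The reduction in closed form. -/
def red (y : List ℕ × ℕ) : Inst × ℕ :=
  ((0, (List.range (2 * y.1.length + 2)).map fun l =>
    ((bif decide (l % 2 = 0) then (y.1.length + 1) * y.2 + 1 else
        (y.1.length + 1) * y.1.getD (l / 2) 0,
      bif decide (l % 2 = 0) then (y.1.length + 1) * y.2 + 1 else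
        (y.1.length + 1) * y.1.getD (l / 2) 0),
    (bif decide (l = 2 * y.1.length + 1) then
        zc y + y.1.length * Hc y + 2 * (2 * ((y.1.length + 1) * y.2)) else
      bif decide (l % 2 = 1) then (l / 2 + 1) * Hc y else 0,
      bif decide (l = 2 * y.1.length + 1) then 1 else bif decide (l = 0) then 1 else
      bif decide (l % 2 = 1) then 2 * ((y.1.length + 1) * y.1.getD (l / 2) 0) + 1 else
        Hc y))), 2 * zc y + y.1.length * Hc y + pc y + 2 + 2 * ((y.1.length + 1) * y.2))

theorem red_eq (y : List ℕ × ℕ) : red y = inst (par y) := by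
  unfold red inst
  refine Prod.ext (Prod.ext rfl ?_) ?_
  · refine List.map_congr_left fun l _ => ?_
    refine Prod.ext ?_ (Prod.ext ?_ ?_)
    · have : (par y).w l = bif decide (l % 2 = 0) then (y.1.length + 1) * y.2 + 1 else
        (y.1.length + 1) * y.1.getD (l / 2) 0 := by
        unfold Par.w
        rw [Bool.cond_decide]
        rfl
      simp only [this]
    · show _ = (par y).rel l
      unfold Par.rel
      rw [zc_eq, Hc_eq]
      simp only [Bool.cond_decide]
      rfl
    · show _ = (par y).hnd l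
      unfold Par.hnd
      rw [Hc_eq]
      simp only [Bool.cond_decide]
      rfl
  · show _ = (par y).K
    unfold Par.K
    rw [zc_eq, Hc_eq, pc_eq]
    rfl

theorem red_poly : Poly red := by
  have hlen : UPoly (fun y : List ℕ × ℕ => 2 * y.1.length + 2) :=
    UPoly.add (UPoly.mul (UPoly.const 2) (UPoly.length (NPC.Poly.fst NPC.Poly.id)))
      (UPoly.const 2)
  have hr := hlen.range
  have hz : Poly zc := by unfold zc; fun_prop
  have hp : Poly pc := by unfold pc; fun_prop
  have hH : Poly Hc := by unfold Hc; fun_prop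
  unfold red
  refine NPC.Poly.pair (NPC.Poly.pair (NPC.Poly.const 0) ?_) (by fun_prop)
  refine NPC.Poly.map hr ?_
  fun_prop

/-- **Main theorem.** -/
theorem hard : HardPr (fun y : Inst × ℕ => y.1.start = 0 ∧ Positive y.1 ∧ Symmetric y.1)
    Schedulable := by
  intro L hL
  obtain ⟨f, hf, hfL⟩ := hardPr_SubsetSum.toHardI L hL
  refine ⟨fun x => red (f x), PC.comp red_poly hf, fun x => ?_, fun x => ?_⟩
  · have h := red_eq (f x)
    simp only [h]
    exact ⟨rfl, inst_positive _, inst_symmetric _⟩
  · have h := red_eq (f x)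
    simp only [h]
    rw [inst_iff, hfL x]
    exact subset_iff _ _

end Pool.Agent.W986.SVS
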