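import Pool.Agent.W986.SVS.Core

/-!
# The reduction from the subset sum problem
-/

namespace Pool.Agent.W986.SVS

/-- Parameters: the numbers `a 0, …, a (n - 1)` and the target `b`. -/
structure Par where
  /-- how many numbers -/
  n : ℕ
  /-- the numbers -/
  a : ℕ → ℕ
  /-- the target -/
  b : ℕ

namespace Par

variable (P : Par)

/-- Distance between vertices `l` and `l + 1`. -/
def w (l : ℕ) : ℕ := if l % 2 = 0 then (P.n + 1) * P.b + 1 else (P.n + 1) * P.a (l / 2)

/-- Coordinates. -/
def X (j : ℕ) : ℕ := ∑ l ∈ Finset.range j, P.w l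

/-- The rightmost coordinate. -/
def z : ℕ := P.X (2 * P.n + 1)

/-- Handling time of the small jobs. -/
def p (i : ℕ) : ℕ := 2 * ((P.n + 1) * P.a i) + 1

/-- The slack. -/
def W : ℕ := 2 * ((P.n + 1) * P.b)

/-- Handling time of the big jobs. -/
def H : ℕ := 2 * P.z + P.W + ∑ i ∈ Finset.range P.n, P.p i + 3

/-- Release times. -/
def rel (l : ℕ) : ℕ :=
  if l = 2 * P.n + 1 then P.z + P.n * P.H + 2 * P.W else
    if l % 2 = 1 then (l / 2 + 1) * P.H else 0

/-- Handling times. -/
def hnd (l : ℕ) : ℕ :=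
  if l = 2 * P.n + 1 then 1 else if l = 0 then 1 else if l % 2 = 1 then P.p (l / 2) else P.H

/-- The bound. -/
def K : ℕ := 2 * P.z + P.n * P.H + ∑ i ∈ Finset.range P.n, P.p i + 2 + P.W

theorem X_odd (i : ℕ) : P.X (2 * i + 2) = P.X (2 * i + 1) + (P.n + 1) * P.a i := by
  unfold X
  rw [Finset.sum_range_succ _ (2 * i + 1)]
  congr 1
  unfold w
  rw [if_neg (by omega)]
  congr 2
  omega

theorem X_even (i : ℕ) : P.X (2 * i + 1) = P.X (2 * i) + ((P.n + 1) * P.b + 1) := by
  unfold X
  rw [Finset.sum_range_succ _ (2 * i)]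
  congr 1
  unfold w
  rw [if_pos (by omega)]

theorem X_mono {i j : ℕ} (h : i ≤ j) : P.X i ≤ P.X j := by
  unfold X
  exact Finset.sum_le_sum_of_subset (Finset.range_mono h)

theorem X_zero : P.X 0 = 0 := rfl

theorem hnd_zero : P.hnd 0 = 1 := by simp [hnd]

theorem hnd_last : P.hnd (2 * P.n + 1) = 1 := by simp [hnd]

theorem hnd_J {i : ℕ} (hi : i < P.n) : P.hnd (2 * i + 1) = P.p i := by
  unfold hnd
  rw [if_neg (by omega), if_neg (by omega), if_pos (by omega)]
  congr 1; omega

theorem hnd_B (i : ℕ) : P.hnd (2 * i + 2) = P.H := by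
  unfold hnd
  rw [if_neg (by omega), if_neg (by omega), if_neg (by omega)]

theorem rel_zero : P.rel 0 = 0 := by simp [rel]

theorem rel_last : P.rel (2 * P.n + 1) = P.z + P.n * P.H + 2 * P.W := by simp [rel]

theorem rel_J {i : ℕ} (hi : i < P.n) : P.rel (2 * i + 1) = (i + 1) * P.H := by
  unfold rel
  rw [if_neg (by omega), if_pos (by omega)]
  congr 2; omega

theorem rel_B (i : ℕ) : P.rel (2 * i + 2) = 0 := by
  unfold rel
  rw [if_neg (by omega), if_neg (by omega)]

theorem sum_map_range (f : ℕ → ℕ) (n : ℕ) :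
    ((List.range n).map f).sum = ∑ i ∈ Finset.range n, f i := by
  show _ = ((Multiset.range n).map f).sum
  rw [Multiset.range, Multiset.map_coe, Multiset.sum_coe]

theorem sum_pairs (f : ℕ → ℕ) : ∀ n : ℕ, ∑ j ∈ Finset.range (2 * n + 1), f j =
    f 0 + ∑ l ∈ Finset.range n, (f (2 * l + 1) + f (2 * l + 2))
  | 0 => by simp
  | n + 1 => by
    rw [show 2 * (n + 1) + 1 = 2 * n + 1 + 1 + 1 by ring, Finset.sum_range_succ,
      Finset.sum_range_succ, sum_pairs f n, Finset.sum_range_succ]
    ring

theorem sum_hnd : ∑ j ∈ Finset.range (2 * P.n + 2), P.hnd j =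
    P.n * P.H + ∑ i ∈ Finset.range P.n, P.p i + 2 := by
  rw [Finset.sum_range_succ, sum_pairs, hnd_zero, hnd_last]
  rw [Finset.sum_congr rfl (g := fun l => P.p l + P.H) (fun l hl => by
    rw [P.hnd_J (Finset.mem_range.1 hl), P.hnd_B])]
  rw [Finset.sum_add_distrib, Finset.sum_const, Finset.card_range, smul_eq_mul]
  ring

/-- Handling times of a sublist. -/
theorem sum_le_of {l : List ℕ} (hl : l.Nodup) (g : ℕ → ℕ)
    (hg : ∀ j ∈ l, j < 2 * P.n + 2 ∧ P.hnd j ≤ g j) :
    (l.map P.hnd).sum ≤ g 0 + ∑ i ∈ Finset.range P.n, (g (2 * i + 1) + g (2 * i + 2)) +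
      g (2 * P.n + 1) := by
  rw [← sum_pairs, ← Finset.sum_range_succ, ← List.sum_toFinset _ hl]
  refine le_trans (Finset.sum_le_sum fun j hj => (hg j (List.mem_toFinset.1 hj)).2) ?_
  exact Finset.sum_le_sum_of_subset fun j hj =>
    Finset.mem_range.2 (hg j (List.mem_toFinset.1 hj)).1

section Converse

variable {P} {π : List ℕ}

theorem tv_le (hπ : π.Perm (List.range (2 * P.n + 2)))
    (hf : finish (ds P.X) P.rel P.hnd 0 0 0 π ≤ P.K) : tv (ds P.X) 0 0 π ≤ 2 * P.z + P.W := by
  have h1 := finish_ge (d := ds P.X) (r := P.rel) (h := P.hnd) (s := 0) π 0 0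
  have h2 : (π.map P.hnd).sum = P.n * P.H + ∑ i ∈ Finset.range P.n, P.p i + 2 := by
    rw [(hπ.map P.hnd).sum_eq, ← sum_hnd]
    exact sum_map_range _ _
  have h3 : P.K = 2 * P.z + P.n * P.H + ∑ i ∈ Finset.range P.n, P.p i + 2 + P.W := rfl
  omega

theorem split_le (hπ : π.Perm (List.range (2 * P.n + 2)))
    (hf : finish (ds P.X) P.rel P.hnd 0 0 0 π ≤ P.K) {l1 l2 : List ℕ} {c : ℕ}
    (hs : π = l1 ++ c :: l2) :
    P.rel c + tv (ds P.X) 0 c l2 ≤ (l1.map P.hnd).sum + 2 * P.z + P.W := by
  have h1 := finish_ge' (d := ds P.X) (r := P.rel) (h := P.hnd) (s := 0) c l2 l1 0 0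
  rw [← hs] at h1
  have h2 : (π.map P.hnd).sum = P.n * P.H + ∑ i ∈ Finset.range P.n, P.p i + 2 := by
    rw [(hπ.map P.hnd).sum_eq, ← sum_hnd]
    exact sum_map_range _ _
  rw [hs] at h2
  simp only [List.map_append, List.map_cons, List.sum_append, List.sum_cons] at h2
  have h3 : P.K = 2 * P.z + P.n * P.H + ∑ i ∈ Finset.range P.n, P.p i + 2 + P.W := rfl
  omega

theorem mem_of_lt (hπ : π.Perm (List.range (2 * P.n + 2))) {j : ℕ} (hj : j < 2 * P.n + 2) :
    j ∈ π := hπ.mem_iff.2 (List.mem_range.2 hj)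

theorem nodup (hπ : π.Perm (List.range (2 * P.n + 2))) : π.Nodup :=
  hπ.nodup_iff.2 List.nodup_range

/-- Splitting at an element. -/
theorem exists_split (hπ : π.Perm (List.range (2 * P.n + 2))) {c : ℕ} (hc : c < 2 * P.n + 2) :
    ∃ l1 l2, π = l1 ++ c :: l2 ∧ l1.Nodup ∧ c ∉ l1 ∧ (∀ j ∈ l1, j < 2 * P.n + 2) ∧
      ∀ j, j ∈ l1 ↔ j < 2 * P.n + 2 ∧ π.idxOf j < π.idxOf c := by
  obtain ⟨l1, l2, hs, hc1⟩ := List.eq_append_cons_of_mem (mem_of_lt hπ hc)
  have hnd := nodup hπ
  have hnd' := hnd
  rw [hs] at hnd'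
  have hidx : π.idxOf c = l1.length := by
    rw [hs, List.idxOf_append_of_notMem hc1]; simp
  refine ⟨l1, l2, hs, hnd'.of_append_left, hc1, fun j hj => ?_, fun j => ⟨fun hj => ⟨?_, ?_⟩,
    fun hj => ?_⟩⟩
  · exact List.mem_range.1 (hπ.mem_iff.1 (by rw [hs]; exact List.mem_append_left _ hj))
  · exact List.mem_range.1 (hπ.mem_iff.1 (by rw [hs]; exact List.mem_append_left _ hj))
  · rw [hidx, hs, List.idxOf_append_of_mem hj]
    exact List.idxOf_lt_length_iff.2 hj
  · by_contra hcon
    rw [hidx] at hj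
    have h1 := hj.2
    rw [hs, List.idxOf_append_of_notMem hcon] at h1
    omega

/-- A big job to the right of a small one cannot come before it, when the last vertex is visited
afterwards. -/
theorem not_before (hπ : π.Perm (List.range (2 * P.n + 2)))
    (hf : finish (ds P.X) P.rel P.hnd 0 0 0 π ≤ P.K) {i l : ℕ} (hil : i < l) (hl : l < P.n)
    (h1 : π.idxOf (2 * i + 1) < π.idxOf (2 * P.n + 1)) :
    ¬ π.idxOf (2 * l + 2) < π.idxOf (2 * i + 1) := by
  intro h2
  have hsub : [2 * l + 2, 2 * i + 1, 2 * P.n + 1].Sublist π := by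
    refine sublist_of_order ?_ ?_
    · intro a ha
      simp only [List.mem_cons, List.not_mem_nil, or_false] at ha
      rcases ha with rfl | rfl | rfl <;> exact mem_of_lt hπ (by omega)
    · simp only [List.pairwise_cons, List.mem_cons, List.not_mem_nil, or_false, forall_eq_or_imp,
        forall_eq, IsEmpty.forall_iff, implies_true, List.Pairwise.nil, and_true]
      exact ⟨⟨h2, h2.trans h1⟩, h1⟩
  have h3 := tv_sublist (s := 0) (ds_triangle P.X) hsub 0
  have h4 := tv_le hπ hf
  simp only [tv] at h3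
  have e1 := P.X_mono (i := 2 * i + 2) (j := 2 * l) (by omega)
  have e2 := P.X_even l
  have e3 := P.X_mono (i := 2 * i + 1) (j := 2 * i + 2) (by omega)
  have e4 := P.X_mono (i := 2 * l + 1) (j := 2 * l + 2) (by omega)
  have e5 := P.X_mono (i := 2 * l + 2) (j := 2 * P.n + 1) (by omega)
  have e6 : P.z = P.X (2 * P.n + 1) := rfl
  have e7 : P.W = 2 * ((P.n + 1) * P.b) := rfl
  have e0 := P.X_zero
  have ed : ∀ a b, ds P.X a b = (P.X a - P.X b) + (P.X b - P.X a) := fun _ _ => rfl
  simp only [ed] at h3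
  omega

/-- The big job at a place comes before the small job, when the last vertex is visited
afterwards. -/
theorem big_first (hπ : π.Perm (List.range (2 * P.n + 2)))
    (hf : finish (ds P.X) P.rel P.hnd 0 0 0 π ≤ P.K) {i : ℕ} (hi : i < P.n)
    (h1 : π.idxOf (2 * i + 1) < π.idxOf (2 * P.n + 1)) :
    π.idxOf (2 * i + 2) < π.idxOf (2 * i + 1) := by
  by_contra hcon
  obtain ⟨l1, l2, hs, hnd, -, hlt, hmem⟩ := exists_split hπ (c := 2 * i + 1) (by omega)
  have h2 := split_le hπ hf hs
  rw [P.rel_J hi] at h2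
  have h3 := P.sum_le_of hnd (fun j => if j % 2 = 0 ∧ 2 * i + 2 ≤ j then 0 else P.hnd j) (by
    intro j hj
    refine ⟨hlt j hj, ?_⟩
    by_cases hj' : j % 2 = 0 ∧ 2 * i + 2 ≤ j
    · exfalso
      obtain ⟨h4, h5⟩ := (hmem j).1 hj
      obtain ⟨l, rfl⟩ : ∃ l, j = 2 * l + 2 := ⟨j / 2 - 1, by omega⟩
      rcases Nat.lt_or_ge i l with h6 | h6
      · exact not_before hπ hf h6 (by omega) h1 h5
      · obtain rfl : l = i := by omega
        exact hcon h5
    · simp only [hj', if_false, le_refl])
  simp only [] at h3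
  rw [if_neg (by omega), if_neg (by omega), P.hnd_zero, P.hnd_last,
    Finset.sum_congr rfl (g := fun l => P.p l + if l < i then P.H else 0) (fun l hl => by
      rw [if_neg (by omega), P.hnd_J (Finset.mem_range.1 hl), P.hnd_B]
      by_cases hli : l < i
      · rw [if_neg (by omega), if_pos hli]
      · rw [if_pos (by omega), if_neg hli]), Finset.sum_add_distrib, ← Finset.sum_filter,
    Finset.sum_const, smul_eq_mul] at h3
  have h4 : ((Finset.range P.n).filter (fun l => l < i)).card ≤ i := by
    calc _ ≤ (Finset.range i).card := Finset.card_le_card fun l hl => by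
            rw [Finset.mem_filter] at hl; exact Finset.mem_range.2 hl.2
      _ = i := Finset.card_range i
  have h5 := Nat.mul_le_mul_right P.H h4
  have h6 : P.H = 2 * P.z + P.W + ∑ i ∈ Finset.range P.n, P.p i + 3 := rfl
  have h7 : (i + 1) * P.H = i * P.H + P.H := by ring
  omega

/-- The travel time of the essential part of the route. -/
theorem tv_main (sel : ℕ → Bool) : ∀ m k : ℕ, k + m = P.n → ∀ q, P.X q ≤ P.X (2 * k + 1) →
    tv (ds P.X) 0 q (((List.range' k m).filter sel).flatMap (fun i => [2 * i + 2, 2 * i + 1]) ++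
      [2 * P.n + 1]) = (P.z - P.X q) + P.z +
        ∑ i ∈ Finset.range m, (if sel (k + i) then 2 * ((P.n + 1) * P.a (k + i)) else 0)
  | 0, k, hk, q, hq => by
    have h1 : P.z = P.X (2 * P.n + 1) := rfl
    have h0 := P.X_zero
    obtain rfl : k = P.n := by omega
    simp only [List.range'_zero, List.filter_nil, List.flatMap_nil, List.nil_append, tv, ds,
      Finset.range_zero, Finset.sum_empty]
    omega
  | m + 1, k, hk, q, hq => by
    rw [List.range'_succ]
    have e1 := P.X_odd k
    have e2 : P.X (2 * (k + 1) + 1) = P.X (2 * k + 2) + ((P.n + 1) * P.b + 1) :=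
      P.X_even (k + 1)
    have e3 := P.X_mono (i := 2 * (k + 1) + 1) (j := 2 * P.n + 1) (by omega)
    have e4 : P.z = P.X (2 * P.n + 1) := rfl
    have hsum : ∑ i ∈ Finset.range (m + 1), (if sel (k + i) then
        2 * ((P.n + 1) * P.a (k + i)) else 0) = (if sel k then 2 * ((P.n + 1) * P.a k) else 0) +
        ∑ i ∈ Finset.range m, (if sel (k + 1 + i) then
          2 * ((P.n + 1) * P.a (k + 1 + i)) else 0) := by
      rw [Finset.sum_range_succ', add_comm]
      congr 1
      exact Finset.sum_congr rfl fun i _ => by rw [show k + (i + 1) = k + 1 + i by ring]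
    cases hsel : sel k
    · rw [List.filter_cons_of_neg (by simp [hsel]), tv_main sel m (k + 1) (by omega) q (by omega),
        hsum, hsel]
      simp
    · rw [List.filter_cons_of_pos (by simp [hsel]), List.flatMap_cons]
      simp only [List.cons_append, List.nil_append, tv]
      rw [tv_main sel m (k + 1) (by omega) (2 * k + 1) (by omega), hsum, hsel]
      simp only [ds, if_true]
      omega

/-- **A short schedule gives a solution of the subset sum problem.** -/
theorem converse (hπ : π.Perm (List.range (2 * P.n + 2)))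
    (hf : finish (ds P.X) P.rel P.hnd 0 0 0 π ≤ P.K) :
    ∃ sel : ℕ → Bool, ∑ i ∈ Finset.range P.n, (if sel i then P.a i else 0) = P.b := by
  set sel : ℕ → Bool := fun i => decide (π.idxOf (2 * i + 1) < π.idxOf (2 * P.n + 1)) with hsel
  have hsel' : ∀ i, sel i = true ↔ π.idxOf (2 * i + 1) < π.idxOf (2 * P.n + 1) := fun i => by
    rw [hsel]; exact decide_eq_true_iff
  refine ⟨sel, ?_⟩
  have hne : ∀ {i j : ℕ}, i < 2 * P.n + 2 → i ≠ j → π.idxOf i ≠ π.idxOf j := by
    intro i j hi hij h
    exact hij ((List.idxOf_inj (mem_of_lt hπ hi)).1 h)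
  -- travel time
  have hsub : (((List.range' 0 P.n).filter sel).flatMap (fun i => [2 * i + 2, 2 * i + 1]) ++
      [2 * P.n + 1]).Sublist π := by
    refine sublist_of_order ?_ ?_
    · intro c hc
      simp only [List.mem_append, List.mem_flatMap, List.mem_filter, List.mem_range'_1,
        List.mem_cons, List.not_mem_nil, or_false] at hc
      rcases hc with ⟨i, ⟨hi, -⟩, rfl | rfl⟩ | rfl <;> exact mem_of_lt hπ (by omega)
    · rw [List.pairwise_append]
      refine ⟨?_, List.pairwise_singleton _ _, ?_⟩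
      · rw [List.pairwise_flatMap]
        refine ⟨?_, ?_⟩
        · intro i hi
          rw [List.mem_filter, List.mem_range'_1] at hi
          have := big_first hπ hf (by omega) ((hsel' i).1 hi.2)
          simp only [List.pairwise_cons, List.mem_cons, List.not_mem_nil, or_false,
            forall_eq, IsEmpty.forall_iff, implies_true, List.Pairwise.nil, and_true]
          exact this
        · have hp : ((List.range' 0 P.n).filter sel).Pairwise (· < ·) :=
            List.Pairwise.filter _ (List.pairwise_lt_range' (s := 0) (n := P.n))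
          refine List.Pairwise.imp_of_mem ?_ hp
          intro i l hi hl hil x hx y hy
          rw [List.mem_filter, List.mem_range'_1] at hi hl
          have h1 := big_first hπ hf (by omega) ((hsel' i).1 hi.2)
          have h2 := big_first hπ hf (by omega) ((hsel' l).1 hl.2)
          have h3 := not_before hπ hf hil (by omega) ((hsel' i).1 hi.2)
          have h4 := hne (i := 2 * l + 2) (j := 2 * i + 1) (by omega) (by omega)
          simp only [List.mem_cons, List.not_mem_nil, or_false] at hx hy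
          rcases hx with rfl | rfl <;> rcases hy with rfl | rfl <;> omega
      · intro x hx y hy
        simp only [List.mem_flatMap, List.mem_filter, List.mem_range'_1, List.mem_cons,
          List.not_mem_nil, or_false] at hx hy
        obtain ⟨i, ⟨hi, hi'⟩, hx⟩ := hx
        have h1 := (hsel' i).1 hi'
        have h2 := big_first hπ hf (by omega) h1
        subst hy
        rcases hx with rfl | rfl <;> omega
  have h1 := tv_sublist (s := 0) (ds_triangle P.X) hsub 0
  rw [tv_main sel P.n 0 (by omega) 0 (by rw [P.X_zero]; omega)] at h1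
  have h2 := tv_le hπ hf
  have h3 : ∑ i ∈ Finset.range P.n, (if sel (0 + i) then 2 * ((P.n + 1) * P.a (0 + i)) else 0) =
      2 * (P.n + 1) * ∑ i ∈ Finset.range P.n, (if sel i then P.a i else 0) := by
    rw [Finset.mul_sum]
    refine Finset.sum_congr rfl fun i _ => ?_
    rw [zero_add]
    split_ifs <;> ring
  rw [h3, P.X_zero] at h1
  set Sa := ∑ i ∈ Finset.range P.n, (if sel i then P.a i else 0) with hSa
  have h4 : P.W = 2 * (P.n + 1) * P.b := by unfold W; ring
  have h5 : Sa ≤ P.b := by
    have : 2 * (P.n + 1) * Sa ≤ 2 * (P.n + 1) * P.b := by omega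
    exact Nat.le_of_mul_le_mul_left this (by omega)
  -- release time of the last vertex
  obtain ⟨l1, l2, hs, hnd, hZ, hlt, hmem⟩ := exists_split hπ (c := 2 * P.n + 1) (by omega)
  have h6 := split_le hπ hf hs
  rw [P.rel_last] at h6
  have h7 : P.z ≤ tv (ds P.X) 0 (2 * P.n + 1) l2 := by
    have := tv_sublist (d := ds P.X) (s := 0) (ds_triangle P.X) (List.nil_sublist l2)
      (2 * P.n + 1)
    refine le_trans ?_ this
    have h0 := P.X_zero
    have h1 : P.z = P.X (2 * P.n + 1) := rfl
    simp only [tv, ds]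
    omega
  have h8 := P.sum_le_of hnd (fun j => if j = 2 * P.n + 1 then 0 else
      if j % 2 = 1 ∧ sel (j / 2) = false then 0 else P.hnd j) (by
    intro j hj
    refine ⟨hlt j hj, ?_⟩
    have hjZ : j ≠ 2 * P.n + 1 := by rintro rfl; exact hZ hj
    by_cases hj' : j % 2 = 1 ∧ sel (j / 2) = false
    · exfalso
      obtain ⟨h9, h10⟩ := (hmem j).1 hj
      have h11 : 2 * (j / 2) + 1 = j := by omega
      have h12 := hj'.2
      rw [hsel] at h12
      simp only [h11] at h12
      simp only [h10, decide_true] at h12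
      cases h12
    · simp only [hj', if_false, hjZ, le_refl])
  simp only [] at h8
  rw [if_neg (by omega), if_neg (by omega), if_pos trivial, P.hnd_zero,
    Finset.sum_congr rfl (g := fun i => (if sel i then P.p i else 0) + P.H) (fun i hi => by
      have hi' := Finset.mem_range.1 hi
      have e1 : (2 * i + 1) / 2 = i := by omega
      congr 1
      · rw [if_neg (by omega), e1, P.hnd_J hi']
        cases hsi : sel i
        · rw [if_pos ⟨by omega, rfl⟩]; simp
        · rw [if_neg (by simp)]; simp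
      · rw [if_neg (by omega), if_neg (fun hh => absurd hh.1 (by omega)), P.hnd_B]), Finset.sum_add_distrib, Finset.sum_const, smul_eq_mul,
      Finset.card_range] at h8
  have h9 : ∑ i ∈ Finset.range P.n, (if sel i then P.p i else 0) ≤
      2 * (P.n + 1) * Sa + P.n := by
    calc _ ≤ ∑ i ∈ Finset.range P.n, (2 * (P.n + 1) * (if sel i then P.a i else 0) + 1) := by
            refine Finset.sum_le_sum fun i _ => ?_
            unfold p
            split_ifs
            · exact le_of_eq (by ring)
            · omega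
      _ = 2 * (P.n + 1) * Sa + P.n := by
            rw [Finset.sum_add_distrib, ← Finset.mul_sum, Finset.sum_const, Finset.card_range,
              smul_eq_mul, mul_one]
  have h10 : P.b ≤ Sa := by
    by_contra hcon
    have h11 : 2 * (P.n + 1) * (Sa + 1) ≤ 2 * (P.n + 1) * P.b :=
      Nat.mul_le_mul_left _ (by omega)
    have h12 : 2 * (P.n + 1) * (Sa + 1) = 2 * (P.n + 1) * Sa + 2 * (P.n + 1) := by ring
    omega
  omega

end Converse

end Par

end Pool.Agent.W986.SVS
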